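import Pool.Agent.J6H50.Bary.Tensor

/-!
# The product of a strongly log-concave measure with a Gaussian of the same curvature
-/

set_option autoImplicit false

namespace Pool.Agent.J6H50.Bary

open MeasureTheory ProbabilityTheory Set Filter Topology
open scoped ENNReal NNReal ContDiff RealInnerProductSpace

open Pool.Agent.Results.MP_7c2736_pr.NoPoincareBound (E StronglyLogConcave poincareConst
  IsCoupling W2sq IsBarycenter)

variable {n : ℕ}

/-- `J` as a measurable equivalence -/
noncomputable def Je (n : ℕ) : ℝ × E n ≃ᵐ E (n + 1) where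
  toFun := J
  invFun := fun x => (x 0, P x)
  left_inv := fun p => by simp
  right_inv := fun x => J_P x
  measurable_toFun := continuous_J.measurable
  measurable_invFun := by
    have := (continuous_P (n := n)).measurable
    simp only [Equiv.coe_fn_symm_mk]
    fun_prop

lemma volume_J : MeasurePreserving (J : ℝ × E n → E (n + 1)) := by
  have h1 := (EuclideanSpace.volume_preserving_symm_measurableEquiv_toLp (Fin n))
  have h2 : MeasurePreserving (Prod.map id (MeasurableEquiv.toLp 2 (Fin n → ℝ)).symm :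
      ℝ × E n → ℝ × (Fin n → ℝ)) := (MeasurePreserving.id volume).prod h1
  have h3 := (volume_preserving_piFinSuccAbove (fun _ : Fin (n + 1) => ℝ) 0).symm
  have h4 := (EuclideanSpace.volume_preserving_symm_measurableEquiv_toLp (Fin (n + 1))).symm
  have h5 := h4.comp (h3.comp h2)
  convert h5 using 1
  funext p
  ext i
  refine Fin.cases ?_ (fun j => ?_) i
  · rfl
  · rfl

/-- the potential of the Gaussian factor -/
noncomputable def gpot (κ : ℝ) (s : ℝ) : EReal := ((κ * s ^ 2 / 2 : ℝ) : EReal)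

lemma exp_neg_coe (r : ℝ) : EReal.exp (-((r : ℝ) : EReal)) = ENNReal.ofReal (Real.exp (-r)) := by
  rw [← EReal.coe_neg, EReal.exp_coe]

lemma gauss_wd {κ : ℝ} (hκ : 0 < κ) :
    (∫⁻ s, EReal.exp (-gpot κ s)) ≠ 0 ∧ (∫⁻ s, EReal.exp (-gpot κ s)) ≠ ⊤ ∧
    gaussianReal 0 (Real.toNNReal (1 / κ)) = (∫⁻ s, EReal.exp (-gpot κ s))⁻¹ •
      volume.withDensity fun s => EReal.exp (-gpot κ s) := by
  set v : ℝ≥0 := Real.toNNReal (1 / κ) with hv
  have hv0 : v ≠ 0 := by
    rw [hv]
    exact (Real.toNNReal_pos.2 (by positivity)).ne'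
  have hvr : (v : ℝ) = 1 / κ := Real.coe_toNNReal _ (by positivity)
  set c : ℝ≥0∞ := ENNReal.ofReal ((√(2 * Real.pi * v))⁻¹) with hc
  have hcpos : 0 < (√(2 * Real.pi * (v : ℝ)))⁻¹ := by
    rw [hvr]; positivity
  have hc0 : c ≠ 0 := (ENNReal.ofReal_pos.2 hcpos).ne'
  have hct : c ≠ ⊤ := ENNReal.ofReal_ne_top
  have hpdf : ∀ s, gaussianPDF 0 v s = c * EReal.exp (-gpot κ s) := by
    intro s
    rw [gpot, exp_neg_coe, hc, ← ENNReal.ofReal_mul hcpos.le, gaussianPDF, gaussianPDFReal]
    congr 2
    rw [hvr]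
    congr 1
    field_simp
    ring
  have hmeas : Measurable fun s => EReal.exp (-gpot κ s) := by
    unfold gpot
    simp_rw [exp_neg_coe]
    fun_prop
  have hwd : gaussianReal 0 v = c • volume.withDensity fun s => EReal.exp (-gpot κ s) := by
    rw [gaussianReal_of_var_ne_zero _ hv0, ← withDensity_smul _ hmeas]
    congr 1
    funext s
    rw [hpdf]
    rfl
  have huniv : 1 = c * ∫⁻ s, EReal.exp (-gpot κ s) := by
    have h1 : (gaussianReal 0 v) univ = 1 := measure_univ
    rw [hwd, Measure.smul_apply, withDensity_apply _ MeasurableSet.univ, setLIntegral_univ,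
      smul_eq_mul] at h1
    exact h1.symm
  have hne0 : (∫⁻ s, EReal.exp (-gpot κ s)) ≠ 0 := by
    intro h
    rw [h, mul_zero] at huniv
    exact one_ne_zero huniv
  have hnet : (∫⁻ s, EReal.exp (-gpot κ s)) ≠ ⊤ := by
    intro h
    rw [h, ENNReal.mul_top hc0] at huniv
    exact ENNReal.one_ne_top huniv
  refine ⟨hne0, hnet, ?_⟩
  rw [hwd]
  congr 1
  exact ENNReal.eq_inv_of_mul_eq_one_left huniv.symm

/-- the potential of the product -/
noncomputable def tpot (κ : ℝ) (V : E n → EReal) (x : E (n + 1)) : EReal :=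
  gpot κ (x 0) + V (P x)

lemma tpot_sub {κ : ℝ} {V : E n → EReal} (hV : ∀ x, V x ≠ ⊥) (x : E (n + 1)) :
    tpot κ V x - ((κ * ‖x‖ ^ 2 / 2 : ℝ) : EReal) =
      V (P x) - ((κ * ‖P x‖ ^ 2 / 2 : ℝ) : EReal) := by
  unfold tpot gpot
  rw [norm_sq]
  induction hz : V (P x) with
  | bot => exact absurd hz (hV _)
  | top =>
    rw [EReal.coe_add_top, EReal.top_sub_coe, EReal.top_sub_coe]
  | coe r =>
    rw [← EReal.coe_add, ← EReal.coe_sub, ← EReal.coe_sub]
    congr 1
    ring

lemma exp_tpot {κ : ℝ} {V : E n → EReal} (hV : ∀ x, V x ≠ ⊥) (p : ℝ × E n) :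
    EReal.exp (-tpot κ V (J p)) = EReal.exp (-gpot κ p.1) * EReal.exp (-V p.2) := by
  unfold tpot
  rw [J_zero, P_J]
  induction hz : V p.2 with
  | bot => exact absurd hz (hV _)
  | top =>
    unfold gpot
    rw [EReal.coe_add_top, EReal.neg_top, EReal.exp_bot, mul_zero]
  | coe r =>
    unfold gpot
    rw [← EReal.coe_add, exp_neg_coe, exp_neg_coe, exp_neg_coe, ← ENNReal.ofReal_mul
      (Real.exp_pos _).le, ← Real.exp_add]
    congr 2
    ring

theorem strongLC_ten {κ : ℝ} (hκ : 0 < κ) {μ : Measure (E n)} (h : StronglyLogConcave κ μ) :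
    StronglyLogConcave κ (ten (gaussianReal 0 (Real.toNNReal (1 / κ))) μ) := by
  obtain ⟨V, hbot, ⟨x0, hx0⟩, hlsc, hconv, hne0, hnet, hμ⟩ := h
  obtain ⟨g0, gt, hg⟩ := gauss_wd hκ
  have hVm : Measurable fun x => EReal.exp (-V x) :=
    EReal.measurable_exp.comp (hlsc.measurable.neg)
  have hgm : Measurable fun s => EReal.exp (-gpot κ s) := by
    unfold gpot
    simp_rw [exp_neg_coe]
    fun_prop
  have hcont0 : Continuous fun x : E (n + 1) => gpot κ (x 0) := by
    unfold gpot
    exact continuous_coe_real_ereal.comp (by fun_prop)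
  have hlsc' : LowerSemicontinuous (tpot κ V) := by
    unfold tpot
    refine hcont0.lowerSemicontinuous.add' (LowerSemicontinuous.comp hlsc continuous_P) fun x => ?_
    refine EReal.continuousAt_add (Or.inr (hbot _)) (Or.inl ?_)
    exact EReal.coe_ne_bot _
  have htm : Measurable fun x => EReal.exp (-tpot κ V x) :=
    EReal.measurable_exp.comp (hlsc'.measurable.neg)
  have hint : ∫⁻ x, EReal.exp (-tpot κ V x) =
      (∫⁻ s, EReal.exp (-gpot κ s)) * ∫⁻ x, EReal.exp (-V x) := by
    rw [← (volume_J (n := n)).lintegral_comp htm]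
    simp_rw [exp_tpot hbot]
    exact lintegral_prod_mul hgm.aemeasurable hVm.aemeasurable
  refine ⟨tpot κ V, fun x => ?_, ⟨J (0, x0), ?_⟩, hlsc', ?_, ?_, ?_, ?_⟩
  · unfold tpot gpot
    intro hh
    rcases EReal.add_eq_bot_iff.1 hh with h1 | h1
    · exact EReal.coe_ne_bot _ h1
    · exact hbot _ h1
  · unfold tpot gpot
    rw [P_J]
    induction hz : V x0 with
    | bot => exact absurd hz (hbot _)
    | top => exact absurd hz hx0
    | coe r =>
      rw [← EReal.coe_add]
      exact EReal.coe_ne_top _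
  · intro x y a b ha hb hab
    rw [tpot_sub hbot, tpot_sub hbot, tpot_sub hbot, ← P_add, P_smul, P_smul]
    exact hconv (P x) (P y) a b ha hb hab
  · rw [hint]
    exact mul_ne_zero g0 hne0
  · rw [hint]
    exact ENNReal.mul_ne_top gt hnet
  · rw [hint]
    unfold ten
    conv_lhs => rw [hg, hμ]
    rw [Measure.prod_smul_left, Measure.prod_smul_right, prod_withDensity hgm hVm, smul_smul,
      Measure.map_smul, ENNReal.mul_inv (Or.inl g0) (Or.inl gt)]
    congr 1
    apply Measure.ext_of_lintegral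
    intro f hf
    have hfJ : Measurable fun p : ℝ × E n => f (J p) := hf.comp continuous_J.measurable
    have hd : Measurable fun z : ℝ × E n => EReal.exp (-gpot κ z.1) * EReal.exp (-V z.2) :=
      (hgm.comp measurable_fst).mul (hVm.comp measurable_snd)
    rw [lintegral_map hf continuous_J.measurable,
      lintegral_withDensity_eq_lintegral_mul _ hd hfJ,
      lintegral_withDensity_eq_lintegral_mul _ htm hf,
      ← (volume_J (n := n)).lintegral_comp (htm.mul hf)]
    refine lintegral_congr fun p => ?_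
    simp only [Pi.mul_apply]
    rw [exp_tpot hbot]

end Pool.Agent.J6H50.Bary
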