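import Pool.Agent.J6H50.Bary.LogC

/-!
# The Poincaré constant of a product is at least the one of its factor
-/

set_option autoImplicit false

namespace Pool.Agent.J6H50.Bary

open MeasureTheory ProbabilityTheory Set Filter Topology
open scoped ENNReal NNReal RealInnerProductSpace

open Pool.Agent.Results.MP_7c2736_pr.NoPoincareBound (E StronglyLogConcave poincareConst
  IsCoupling W2sq IsBarycenter)

variable {n : ℕ}

lemma enorm_gradient {m : ℕ} (f : E m → ℝ) (x : E m) : ‖gradient f x‖ₑ = ‖fderiv ℝ f x‖ₑ := by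
  unfold gradient
  rw [← ofReal_norm, ← ofReal_norm, LinearIsometryEquiv.norm_map]

/-- `P` as a continuous linear map -/
noncomputable def PL (n : ℕ) : E (n + 1) →L[ℝ] E n :=
  LinearMap.mkContinuous
    { toFun := P
      map_add' := fun x y => (P_add x y).symm
      map_smul' := fun c x => P_smul c x } 1 (fun x => by
        rw [one_mul]; exact norm_P_le x)

lemma PL_apply (x : E (n + 1)) : PL n x = P x := rfl

lemma norm_PL_le : ‖PL n‖ ≤ 1 := LinearMap.mkContinuous_norm_le _ zero_le_one _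

/-- the first coordinate -/
noncomputable def C0 (n : ℕ) : E (n + 1) →L[ℝ] ℝ := EuclideanSpace.proj 0

lemma C0_apply (x : E (n + 1)) : C0 n x = x 0 := rfl

lemma norm_C0_le : ‖C0 n‖ ≤ 1 := by
  refine ContinuousLinearMap.opNorm_le_bound _ zero_le_one fun x => ?_
  rw [one_mul, C0_apply, Real.norm_eq_abs]
  have h := norm_sq x
  rw [← Real.sqrt_sq_eq_abs]
  rw [← Real.sqrt_sq (norm_nonneg x)]
  apply Real.sqrt_le_sqrt
  rw [h]
  nlinarith [sq_nonneg ‖P x‖]

/-- a smooth bump function on the line -/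
noncomputable def chi : ContDiffBump (0 : ℝ) := ⟨1, 2, one_pos, one_lt_two⟩

lemma chi_deriv_bound : ∃ S : ℝ, 0 ≤ S ∧ ∀ s, ‖fderiv ℝ (chi : ℝ → ℝ) s‖ ≤ S := by
  have h1 : Continuous (fderiv ℝ (chi : ℝ → ℝ)) :=
    (chi.contDiff (n := 1)).continuous_fderiv one_ne_zero
  have h2 : HasCompactSupport (fderiv ℝ (chi : ℝ → ℝ)) := chi.hasCompactSupport.fderiv ℝ
  obtain ⟨S, hS⟩ := h2.exists_bound_of_continuous h1
  exact ⟨S, (norm_nonneg _).trans (hS 0), hS⟩

/-- the truncated test function -/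
noncomputable def gt (f : E n → ℝ) (m : ℕ) (x : E (n + 1)) : ℝ :=
  f (P x) * chi (x 0 / ((m : ℝ) + 1))

lemma gt_smooth {f : E n → ℝ} (hf : ContDiff ℝ ((⊤ : ℕ∞) : WithTop ℕ∞) f) (m : ℕ) :
    ContDiff ℝ ((⊤ : ℕ∞) : WithTop ℕ∞) (gt f m) := by
  unfold gt
  refine (hf.comp (PL n).contDiff).mul (chi.contDiff.comp ?_)
  exact ((C0 n).contDiff).div_const _

lemma gt_compact {f : E n → ℝ} (hf : HasCompactSupport f) (m : ℕ) :
    HasCompactSupport (gt f m) := by
  have hK : IsCompact ((J : ℝ × E n → E (n + 1)) ''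
      (Metric.closedBall (0 : ℝ) (2 * ((m : ℝ) + 1)) ×ˢ tsupport f)) :=
    ((isCompact_closedBall _ _).prod hf).image continuous_J
  refine HasCompactSupport.intro hK fun x hx => ?_
  unfold gt
  by_cases h1 : P x ∈ tsupport f
  · have h2 : x 0 ∉ Metric.closedBall (0 : ℝ) (2 * ((m : ℝ) + 1)) := by
      intro h2
      exact hx ⟨(x 0, P x), ⟨h2, h1⟩, J_P x⟩
    have h3 : chi (x 0 / ((m : ℝ) + 1)) = 0 := by
      apply chi.zero_of_le_dist
      rw [Metric.mem_closedBall, dist_zero_right, not_le, Real.norm_eq_abs] at h2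
      rw [dist_zero_right, Real.norm_eq_abs, abs_div, abs_of_pos (by positivity : (0 : ℝ) < m + 1),
        le_div_iff₀ (by positivity)]
      exact h2.le
    rw [h3, mul_zero]
  · rw [image_eq_zero_of_notMem_tsupport h1, zero_mul]

lemma gt_abs_le {f : E n → ℝ} {M : ℝ} (hM : ∀ y, |f y| ≤ M) (m : ℕ) (x : E (n + 1)) :
    |gt f m x| ≤ M := by
  unfold gt
  rw [abs_mul]
  have h1 : |chi (x 0 / ((m : ℝ) + 1))| ≤ 1 := by
    rw [abs_of_nonneg chi.nonneg]
    exact chi.le_one
  calc |f (P x)| * |chi (x 0 / ((m : ℝ) + 1))| ≤ M * 1 :=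
        mul_le_mul (hM _) h1 (abs_nonneg _) ((abs_nonneg _).trans (hM (P x)))
    _ = M := mul_one _

lemma gt_tendsto (f : E n → ℝ) (x : E (n + 1)) :
    Tendsto (fun m => gt f m x) atTop (𝓝 (f (P x))) := by
  obtain ⟨m0, hm0⟩ := exists_nat_ge |x 0|
  refine tendsto_const_nhds.congr' ?_
  filter_upwards [eventually_ge_atTop m0] with m hm
  unfold gt
  have h : chi (x 0 / ((m : ℝ) + 1)) = 1 := by
    apply chi.one_of_mem_closedBall
    rw [Metric.mem_closedBall, dist_zero_right, Real.norm_eq_abs, abs_div,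
      abs_of_pos (by positivity : (0 : ℝ) < m + 1)]
    have h2 : (chi.rIn : ℝ) = 1 := rfl
    rw [h2, div_le_one (by positivity)]
    have : (m0 : ℝ) ≤ m := by exact_mod_cast hm
    linarith
  rw [h, mul_one]

lemma gt_fderiv {f : E n → ℝ} (hf : Differentiable ℝ f) {M S : ℝ} (hM : ∀ y, |f y| ≤ M)
    (hS : ∀ s, ‖fderiv ℝ (chi : ℝ → ℝ) s‖ ≤ S) (m : ℕ) (x : E (n + 1)) :
    ‖fderiv ℝ (gt f m) x‖ ≤ ‖fderiv ℝ f (P x)‖ + M * S / ((m : ℝ) + 1) := by
  have hM0 : 0 ≤ M := (abs_nonneg _).trans (hM 0)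
  have hS0 : 0 ≤ S := (norm_nonneg _).trans (hS 0)
  have hm : (0 : ℝ) < (m : ℝ) + 1 := by positivity
  have h1 : HasFDerivAt (fun x : E (n + 1) => f (P x)) ((fderiv ℝ f (P x)).comp (PL n)) x :=
    (hf (P x)).hasFDerivAt.comp x (PL n).hasFDerivAt
  have h2 : HasFDerivAt (fun x : E (n + 1) => x 0 / ((m : ℝ) + 1))
      (((m : ℝ) + 1)⁻¹ • C0 n) x := by
    have h3 := (C0 n).hasFDerivAt (x := x)
    have h4 := h3.const_mul (((m : ℝ) + 1)⁻¹)
    refine h4.congr_of_eventuallyEq (Eventually.of_forall fun y => ?_)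
    simp only [C0_apply]
    rw [div_eq_inv_mul]
  have hchi : Differentiable ℝ (chi : ℝ → ℝ) := (chi.contDiff (n := 1)).differentiable one_ne_zero
  have h5 : HasFDerivAt (fun x : E (n + 1) => chi (x 0 / ((m : ℝ) + 1)))
      ((fderiv ℝ (chi : ℝ → ℝ) (x 0 / ((m : ℝ) + 1))).comp (((m : ℝ) + 1)⁻¹ • C0 n)) x :=
    (hchi _).hasFDerivAt.comp x h2
  have h6 := h1.mul h5
  have h7 : fderiv ℝ (gt f m) x = _ := h6.fderiv
  rw [h7]
  refine (norm_add_le _ _).trans ?_
  rw [norm_smul, norm_smul, add_comm]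
  apply add_le_add
  · calc ‖chi (x 0 / ((m : ℝ) + 1))‖ * ‖(fderiv ℝ f (P x)).comp (PL n)‖
        ≤ 1 * (‖fderiv ℝ f (P x)‖ * 1) := by
          apply mul_le_mul
          · rw [Real.norm_eq_abs, abs_of_nonneg chi.nonneg]
            exact chi.le_one
          · refine (ContinuousLinearMap.opNorm_comp_le _ _).trans ?_
            exact mul_le_mul_of_nonneg_left norm_PL_le (norm_nonneg _)
          · exact norm_nonneg _
          · exact zero_le_one
      _ = ‖fderiv ℝ f (P x)‖ := by ring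
  · calc ‖f (P x)‖ * ‖(fderiv ℝ (chi : ℝ → ℝ) (x 0 / ((m : ℝ) + 1))).comp (((m : ℝ) + 1)⁻¹ • C0 n)‖
        ≤ M * (S * (((m : ℝ) + 1)⁻¹ * 1)) := by
          apply mul_le_mul (hM _) _ (norm_nonneg _) hM0
          refine (ContinuousLinearMap.opNorm_comp_le _ _).trans ?_
          apply mul_le_mul (hS _) _ (norm_nonneg _) hS0
          rw [norm_smul, Real.norm_eq_abs, abs_of_pos (by positivity : (0 : ℝ) < ((m : ℝ) + 1)⁻¹)]
          exact mul_le_mul_of_nonneg_left norm_C0_le (by positivity)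
      _ = M * S / ((m : ℝ) + 1) := by
          field_simp

theorem poincare_ten (γ : Measure ℝ) [IsProbabilityMeasure γ] (ν : Measure (E n))
    [IsProbabilityMeasure ν] : poincareConst ν ≤ poincareConst (ten γ ν) := by
  refine le_sInf fun C hC => ?_
  by_cases hCt : C = ⊤
  · rw [hCt]; exact le_top
  refine sInf_le ?_
  intro f hf hcs
  -- bounds
  obtain ⟨M, hM⟩ := hcs.exists_bound_of_continuous hf.continuous
  have hM' : ∀ y, |f y| ≤ M := fun y => by simpa [Real.norm_eq_abs] using hM y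
  have hM0 : 0 ≤ M := (abs_nonneg _).trans (hM' 0)
  have hd : Differentiable ℝ f := hf.differentiable (by simp)
  have hcd : Continuous (fderiv ℝ f) := hf.continuous_fderiv (by simp)
  obtain ⟨K, hK⟩ := (hcs.fderiv ℝ).exists_bound_of_continuous hcd
  have hK0 : 0 ≤ K := (norm_nonneg _).trans (hK 0)
  obtain ⟨S, hS0, hS⟩ := chi_deriv_bound
  set ν' := ten γ ν with hν'
  have hmapP : ν'.map P = ν := map_P_ten γ ν
  have hPm := (continuous_P (n := n)).measurable
  have hgc : ∀ m, Continuous (gt f m) := fun m => (gt_smooth hf m).continuous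
  -- convergence of the means
  have hmean : Tendsto (fun m => ∫ x, gt f m x ∂ν') atTop (𝓝 (∫ x, f (P x) ∂ν')) := by
    refine tendsto_integral_of_dominated_convergence (fun _ => M)
      (fun m => (hgc m).aestronglyMeasurable) (integrable_const _) (fun m => ae_of_all _ fun x => ?_)
      (ae_of_all _ fun x => gt_tendsto f x)
    rw [Real.norm_eq_abs]
    exact gt_abs_le hM' m x
  have hvar : Tendsto (fun m => ∫ x, (gt f m x - ∫ y, gt f m y ∂ν') ^ 2 ∂ν') atTop
      (𝓝 (∫ x, (f (P x) - ∫ y, f (P y) ∂ν') ^ 2 ∂ν')) := by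
    refine tendsto_integral_of_dominated_convergence (fun _ => (2 * M) ^ 2)
      (fun m => (((hgc m).sub continuous_const).pow 2).aestronglyMeasurable)
      (integrable_const _) (fun m => ae_of_all _ fun x => ?_)
      (ae_of_all _ fun x => ((gt_tendsto f x).sub hmean).pow 2)
    rw [norm_pow, Real.norm_eq_abs]
    apply pow_le_pow_left₀ (abs_nonneg _)
    have h1 : |∫ y, gt f m y ∂ν'| ≤ M := by
      have := norm_integral_le_of_norm_le_const (μ := ν') (f := gt f m) (C := M)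
        (ae_of_all _ fun x => by rw [Real.norm_eq_abs]; exact gt_abs_le hM' m x)
      simpa [Real.norm_eq_abs] using this
    have h2 := gt_abs_le hM' m x
    calc |gt f m x - ∫ y, gt f m y ∂ν'| ≤ |gt f m x| + |∫ y, gt f m y ∂ν'| := abs_sub _ _
      _ ≤ 2 * M := by linarith
  have hvar_eq : ∫ x, (f (P x) - ∫ y, f (P y) ∂ν') ^ 2 ∂ν' = ∫ x, (f x - ∫ y, f y ∂ν) ^ 2 ∂ν := by
    have e1 : ∫ y, f (P y) ∂ν' = ∫ y, f y ∂ν := by
      rw [← hmapP, integral_map hPm.aemeasurable hf.continuous.aestronglyMeasurable]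
    rw [e1]
    set a : ℝ := ∫ y, f y ∂ν with ha
    clear_value a
    have hq : Continuous fun x : E n => (f x - a) ^ 2 := (hf.continuous.sub continuous_const).pow 2
    rw [← hmapP, integral_map hPm.aemeasurable hq.aestronglyMeasurable]
  rw [hvar_eq] at hvar
  -- the energy
  set En : ℝ≥0∞ := ∫⁻ x, ‖gradient f x‖ₑ ^ 2 ∂ν with hEn
  let ε : ℕ → ℝ := fun m => M * S / ((m : ℝ) + 1)
  have hε0 : ∀ m, 0 ≤ ε m := fun m => by positivity
  have hεt : Tendsto ε atTop (𝓝 0) := by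
    have h1 := (tendsto_one_div_add_atTop_nhds_zero_nat (𝕜 := ℝ)).const_mul (M * S)
    rw [mul_zero] at h1
    refine h1.congr fun m => ?_
    simp only [ε]
    ring
  have henergy : ∀ m, ∫⁻ x, ‖gradient (gt f m) x‖ₑ ^ 2 ∂ν' ≤
      En + ENNReal.ofReal (2 * K * ε m + ε m ^ 2) := by
    intro m
    have h1 : ∀ x, ‖gradient (gt f m) x‖ₑ ^ 2 ≤
        ‖fderiv ℝ f (P x)‖ₑ ^ 2 + ENNReal.ofReal (2 * K * ε m + ε m ^ 2) := by
      intro x
      rw [enorm_gradient, ← ofReal_norm, ← ofReal_norm, ← ENNReal.ofReal_pow (norm_nonneg _),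
        ← ENNReal.ofReal_pow (norm_nonneg _), ← ENNReal.ofReal_add (by positivity)
        (by have := hε0 m; positivity)]
      apply ENNReal.ofReal_le_ofReal
      have h2 := gt_fderiv hd hM' hS m x
      have h3 : ‖fderiv ℝ (gt f m) x‖ ^ 2 ≤ (‖fderiv ℝ f (P x)‖ + ε m) ^ 2 :=
        pow_le_pow_left₀ (norm_nonneg _) h2 2
      refine h3.trans ?_
      have h4 := hK (P x)
      nlinarith [mul_le_mul_of_nonneg_right h4 (hε0 m)]
    refine (lintegral_mono h1).trans ?_
    rw [lintegral_add_right _ measurable_const, lintegral_const, measure_univ, mul_one]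
    apply add_le_add_left
    rw [hEn]
    have h5 : ∫⁻ x, ‖gradient f x‖ₑ ^ 2 ∂ν = ∫⁻ x, ‖fderiv ℝ f x‖ₑ ^ 2 ∂ν := by
      simp_rw [enorm_gradient]
    rw [h5]
    conv_rhs => rw [← hmapP]
    rw [lintegral_map (by fun_prop) hPm]
  have hineq : ∀ m, ENNReal.ofReal (∫ x, (gt f m x - ∫ y, gt f m y ∂ν') ^ 2 ∂ν') ≤
      C * (En + ENNReal.ofReal (2 * K * ε m + ε m ^ 2)) := fun m =>
    (hC (gt f m) (gt_smooth hf m) (gt_compact hcs m)).trans (mul_le_mul_right (henergy m) _)
  have hl := (ENNReal.continuous_ofReal.tendsto _).comp hvar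
  have hr : Tendsto (fun m => C * (En + ENNReal.ofReal (2 * K * ε m + ε m ^ 2))) atTop
      (𝓝 (C * (En + 0))) := by
    apply ENNReal.Tendsto.const_mul _ (Or.inr hCt)
    apply tendsto_const_nhds.add
    have h6 : Tendsto (fun m => 2 * K * ε m + ε m ^ 2) atTop (𝓝 (2 * K * 0 + 0 ^ 2)) :=
      (hεt.const_mul _).add (hεt.pow 2)
    have h7 := (ENNReal.continuous_ofReal.tendsto _).comp h6
    simp only [mul_zero, ne_eq, OfNat.ofNat_ne_zero, not_false_eq_true, zero_pow, add_zero,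
      ENNReal.ofReal_zero] at h7
    exact h7
  have hfin := le_of_tendsto_of_tendsto' hl hr hineq
  rw [add_zero] at hfin
  exact hfin

end Pool.Agent.J6H50.Bary
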