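import Pool.Agent.Results.MP_7c2736_pr.NoPoincareBound

/-!
# Tensoring a Wasserstein barycenter problem with a fixed measure on the line

`J (s, y)` is the point of `ℝ^(n+1)` with first coordinate `s` and other coordinates `y`, `P` is
the projection to the last `n` coordinates.
-/

set_option autoImplicit false

namespace Pool.Agent.J6H50.Bary

open MeasureTheory ProbabilityTheory Set Filter Topology
open scoped ENNReal NNReal ContDiff RealInnerProductSpace

open Pool.Agent.Results.MP_7c2736_pr.NoPoincareBound (E StronglyLogConcave poincareConst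
  IsCoupling W2sq IsBarycenter)

variable {n : ℕ}

/-- the point with first coordinate `p.1` and other coordinates `p.2` -/
noncomputable def J (p : ℝ × E n) : E (n + 1) := WithLp.toLp 2 (Fin.cons p.1 p.2)

/-- the projection to the last `n` coordinates -/
noncomputable def P (x : E (n + 1)) : E n := WithLp.toLp 2 (fun i => x i.succ)

@[simp] lemma J_zero (p : ℝ × E n) : J p 0 = p.1 := rfl

@[simp] lemma J_succ (p : ℝ × E n) (i : Fin n) : J p i.succ = p.2 i := rfl

@[simp] lemma P_apply (x : E (n + 1)) (i : Fin n) : P x i = x i.succ := rfl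

@[simp] lemma P_J (p : ℝ × E n) : P (J p) = p.2 := by
  ext i
  simp

lemma J_P (x : E (n + 1)) : J (x 0, P x) = x := by
  ext i
  refine Fin.cases ?_ (fun j => ?_) i <;> simp

lemma continuous_P : Continuous (P : E (n + 1) → E n) := by
  unfold P
  fun_prop

lemma continuous_J : Continuous (J : ℝ × E n → E (n + 1)) := by
  unfold J
  refine (PiLp.continuous_toLp 2 _).comp (continuous_pi fun i => ?_)
  refine Fin.cases ?_ (fun j => ?_) i
  · simpa using continuous_fst
  · simp only [Fin.cons_succ]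
    fun_prop

lemma norm_sq (x : E (n + 1)) : ‖x‖ ^ 2 = x 0 ^ 2 + ‖P x‖ ^ 2 := by
  rw [EuclideanSpace.norm_sq_eq, EuclideanSpace.norm_sq_eq, Fin.sum_univ_succ]
  simp

lemma P_sub (x y : E (n + 1)) : P x - P y = P (x - y) := by
  ext i
  simp

lemma P_add (x y : E (n + 1)) : P x + P y = P (x + y) := by
  ext i
  simp

lemma P_smul (c : ℝ) (x : E (n + 1)) : P (c • x) = c • P x := by
  ext i
  simp

lemma norm_P_le (x : E (n + 1)) : ‖P x‖ ≤ ‖x‖ := by
  have h := norm_sq x
  have h1 : ‖P x‖ ^ 2 ≤ ‖x‖ ^ 2 := by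
    rw [h]
    nlinarith [sq_nonneg (x 0)]
  exact (sq_le_sq₀ (norm_nonneg _) (norm_nonneg _)).1 h1

lemma norm_J_sub (s : ℝ) (y z : E n) : ‖J (s, y) - J (s, z)‖ = ‖y - z‖ := by
  have h := norm_sq (J (s, y) - J (s, z))
  have h0 : (J (s, y) - J (s, z)) 0 = 0 := by simp
  rw [h0, ← P_sub, P_J, P_J] at h
  have : ‖J (s, y) - J (s, z)‖ ^ 2 = ‖y - z‖ ^ 2 := by rw [h]; ring
  exact (sq_eq_sq₀ (norm_nonneg _) (norm_nonneg _)).1 this

/-- the law of a vector with independent first coordinate `γ` and other coordinates `μ` -/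
noncomputable def ten (γ : Measure ℝ) (μ : Measure (E n)) : Measure (E (n + 1)) :=
  (γ.prod μ).map J

instance (γ : Measure ℝ) (μ : Measure (E n)) [IsProbabilityMeasure γ] [IsProbabilityMeasure μ] :
    IsProbabilityMeasure (ten γ μ) := by
  unfold ten
  exact Measure.isProbabilityMeasure_map continuous_J.measurable.aemeasurable

lemma map_P_ten (γ : Measure ℝ) (μ : Measure (E n)) [IsProbabilityMeasure γ]
    [IsProbabilityMeasure μ] : (ten γ μ).map P = μ := by
  unfold ten
  rw [Measure.map_map continuous_P.measurable continuous_J.measurable]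
  have : (P ∘ J : ℝ × E n → E n) = Prod.snd := by
    funext p
    simp
  rw [this, ← Measure.snd, Measure.snd_prod]

/-! ### Couplings -/

lemma prob_of_cpl {π : Measure (E n × E n)} {ν μ : Measure (E n)} [IsProbabilityMeasure ν]
    (h : IsCoupling π ν μ) : IsProbabilityMeasure π := by
  constructor
  have h1 : (π.map Prod.fst) univ = 1 := by rw [h.1]; exact measure_univ
  rwa [Measure.map_apply measurable_fst MeasurableSet.univ, preimage_univ] at h1

lemma W2sq_le {π : Measure (E n × E n)} {ν μ : Measure (E n)} (h : IsCoupling π ν μ) :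
    W2sq ν μ ≤ ∫⁻ z, ‖z.1 - z.2‖ₑ ^ 2 ∂π := iInf₂_le π h

lemma W2_ten_le (γ : Measure ℝ) [IsProbabilityMeasure γ] (ν μ : Measure (E n))
    [IsProbabilityMeasure ν] : W2sq (ten γ ν) (ten γ μ) ≤ W2sq ν μ := by
  refine le_iInf₂ fun π hπ => ?_
  have := prob_of_cpl hπ
  let Φ : ℝ × (E n × E n) → E (n + 1) × E (n + 1) := fun q => (J (q.1, q.2.1), J (q.1, q.2.2))
  have hΦ : Measurable Φ := by
    have := (continuous_J (n := n)).measurable
    fun_prop
  have hc : IsCoupling ((γ.prod π).map Φ) (ten γ ν) (ten γ μ) := by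
    constructor
    · rw [Measure.map_map measurable_fst hΦ, ten, ← hπ.1]
      have h1 : γ.prod (π.map Prod.fst) = (γ.prod π).map (Prod.map id Prod.fst) := by
        rw [← Measure.map_prod_map _ _ measurable_id measurable_fst, Measure.map_id]
      rw [h1, Measure.map_map continuous_J.measurable (measurable_id.prodMap measurable_fst)]
      rfl
    · rw [Measure.map_map measurable_snd hΦ, ten, ← hπ.2]
      have h1 : γ.prod (π.map Prod.snd) = (γ.prod π).map (Prod.map id Prod.snd) := by
        rw [← Measure.map_prod_map _ _ measurable_id measurable_snd, Measure.map_id]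
      rw [h1, Measure.map_map continuous_J.measurable (measurable_id.prodMap measurable_snd)]
      rfl
  refine (W2sq_le hc).trans (le_of_eq ?_)
  rw [lintegral_map (by fun_prop) hΦ]
  have h2 : ∀ q : ℝ × (E n × E n), ‖(Φ q).1 - (Φ q).2‖ₑ ^ 2 = ‖q.2.1 - q.2.2‖ₑ ^ 2 := by
    intro q
    rw [← ofReal_norm, ← ofReal_norm]
    simp only [Φ]
    rw [norm_J_sub]
  simp_rw [h2]
  rw [lintegral_prod _ (by fun_prop)]
  simp

lemma W2_proj_le (γ : Measure ℝ) [IsProbabilityMeasure γ] (μ : Measure (E n))
    [IsProbabilityMeasure μ] (ν' : Measure (E (n + 1))) :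
    W2sq (ν'.map P) μ ≤ W2sq ν' (ten γ μ) := by
  refine le_iInf₂ fun π hπ => ?_
  have hP := (continuous_P (n := n)).measurable
  have hc : IsCoupling (π.map (Prod.map P P)) (ν'.map P) μ := by
    constructor
    · rw [Measure.map_map measurable_fst (hP.prodMap hP), ← hπ.1,
        Measure.map_map hP measurable_fst]
      rfl
    · rw [Measure.map_map measurable_snd (hP.prodMap hP)]
      conv_rhs => rw [← map_P_ten γ μ, ← hπ.2]
      rw [Measure.map_map hP measurable_snd]
      rfl
  refine (W2sq_le hc).trans ?_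
  rw [lintegral_map (by fun_prop) (hP.prodMap hP)]
  refine lintegral_mono fun z => ?_
  apply pow_le_pow_left'
  rw [← ofReal_norm, ← ofReal_norm]
  apply ENNReal.ofReal_le_ofReal
  simp only [Prod.map_fst, Prod.map_snd]
  rw [P_sub]
  exact norm_P_le _

lemma bary_ten {N : ℕ} {w : Fin N → ℝ} {μ : Fin N → Measure (E n)} {ν : Measure (E n)}
    (γ : Measure ℝ) [IsProbabilityMeasure γ] (hμ : ∀ i, IsProbabilityMeasure (μ i))
    (h : IsBarycenter w μ ν) : IsBarycenter w (fun i => ten γ (μ i)) (ten γ ν) := by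
  have := h.1
  refine ⟨inferInstance, fun ν' hν' => ?_⟩
  have hP := (continuous_P (n := n)).measurable
  have h1 : IsProbabilityMeasure (ν'.map P) := Measure.isProbabilityMeasure_map hP.aemeasurable
  calc ∑ i, ENNReal.ofReal (w i) * W2sq (ten γ ν) (ten γ (μ i))
      ≤ ∑ i, ENNReal.ofReal (w i) * W2sq ν (μ i) :=
        Finset.sum_le_sum fun i _ => mul_le_mul_right (W2_ten_le γ ν (μ i)) _
    _ ≤ ∑ i, ENNReal.ofReal (w i) * W2sq (ν'.map P) (μ i) := h.2 _ h1
    _ ≤ ∑ i, ENNReal.ofReal (w i) * W2sq ν' (ten γ (μ i)) :=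
        Finset.sum_le_sum fun i _ => mul_le_mul_right (W2_proj_le γ (μ i) ν') _

end Pool.Agent.J6H50.Bary
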